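import Mathlib

/-!
# KM-D: Goursat's lemma for special linear Lie algebras

`ideal_top`: a space of matrices stable under brackets is scalar or contains all matrices of trace `0`.
`finrank_eig`: the eigenspace of `ad A` for the eigenvalue `k` has dimension `∑ rank R_p rank R_(p+k)` (trace of the
projection `c ↦ ∑ R_(p+k) c R_p`).
`pair`: for two blocks `x ≠ x'`, if `a x'` scalar implies `a x` scalar on `L`, then the two maps
`L → sl` (traceless parts of the blocks) are onto and have the same kernel, so the eigenspaces of `ad (a x)` and `ad (a x')` on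
`sl` have the same dimension.
`goursat`: brackets of elements that vanish on more and more blocks.
-/

set_option autoImplicit false

open Matrix

namespace Pool.Agent.Helper68.KM

section ideal
variable {K : Type*} [Field K] {n : Type*} [Fintype n] [DecidableEq n]

/-- a space of matrices, stable under brackets, that contains a non-scalar matrix contains all matrices of trace `0` -/
theorem ideal_top (h2 : (2 : K) ≠ 0) (M : Submodule K (Matrix n n K))
    (hM : ∀ d, ∀ c ∈ M, d * c - c * d ∈ M) {c : Matrix n n K} (hc : c ∈ M)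
    (hns : ∀ l : K, c ≠ l • (1 : Matrix n n K)) (x : Matrix n n K) (hx : x.trace = 0) : x ∈ M := by
  -- off-diagonal entries
  have h1 : ∀ c ∈ M, ∀ i j : n, i ≠ j → c i j ≠ 0 → single j i (1 : K) ∈ M := by
    intro c hc i j hij hne
    have h3 := hM (single j i 1) _ (hM (single j i 1) c hc)
    have h4 : single j i (1 : K) * (single j i 1 * c - c * single j i 1) -
        (single j i 1 * c - c * single j i 1) * single j i 1 = (-2 * c i j) • single j i (1 : K) := by
      have h5 : single j i (1 : K) * single j i 1 = 0 := single_mul_single_of_ne _ _ _ _ hij _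
      have h6 : single j i (1 : K) * c * single j i 1 = c i j • single j i (1 : K) := by
        rw [single_mul_mul_single, smul_single]
        simp
      have h7 : single j i (1 : K) * (single j i 1 * c - c * single j i 1) -
        (single j i 1 * c - c * single j i 1) * single j i 1 =
          (single j i (1 : K) * single j i 1) * c - (2 : K) • (single j i (1 : K) * c * single j i 1) +
            c * (single j i (1 : K) * single j i 1) := by
        rw [two_smul]
        noncomm_ring
      rw [h7, h5, h6, zero_mul, mul_zero, smul_smul]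
      rw [zero_sub, add_zero, neg_mul, neg_smul]
    rw [h4] at h3
    have h8 : -2 * c i j ≠ 0 := mul_ne_zero (neg_ne_zero.2 h2) hne
    have h9 := M.smul_mem (-2 * c i j)⁻¹ h3
    rwa [smul_smul, inv_mul_cancel₀ h8, one_smul] at h9
  -- flip
  have hflip : ∀ i j : n, i ≠ j → single i j (1 : K) ∈ M → single j i (1 : K) ∈ M := by
    intro i j hij h
    refine h1 _ h i j hij ?_
    simp
  -- change of the row
  have hrow : ∀ i j k : n, i ≠ j → k ≠ j → single i j (1 : K) ∈ M → single k j (1 : K) ∈ M := by
    intro i j k hij hkj h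
    have h3 := hM (single k i 1) _ h
    rw [single_mul_single_same, single_mul_single_of_ne _ _ _ _ (Ne.symm hkj), sub_zero, one_mul] at h3
    exact h3
  have hcol : ∀ i j l : n, i ≠ j → l ≠ i → single i j (1 : K) ∈ M → single i l (1 : K) ∈ M := by
    intro i j l hij hli h
    exact hflip l i hli (hrow j i l (Ne.symm hij) hli (hflip i j hij h))
  -- some elementary matrix
  obtain ⟨i, j, hij, hE⟩ : ∃ i j : n, i ≠ j ∧ single i j (1 : K) ∈ M := by
    by_cases hA : ∃ i j : n, i ≠ j ∧ c i j ≠ 0
    · obtain ⟨i, j, hij, h⟩ := hA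
      exact ⟨j, i, Ne.symm hij, h1 c hc i j hij h⟩
    · push Not at hA
      by_cases hB : ∃ i j : n, c i i ≠ c j j
      · obtain ⟨i, j, h⟩ := hB
        have hij : i ≠ j := by
          rintro rfl
          exact h rfl
        have h3 := hM (single i j 1) c hc
        have h4 : single i j (1 : K) * c - c * single i j 1 = (c j j - c i i) • single i j (1 : K) := by
          ext a b
          rw [Matrix.sub_apply, Matrix.smul_apply, smul_eq_mul]
          by_cases ha : a = i
          · subst ha
            rw [single_mul_apply_same]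
            by_cases hb : b = j
            · subst hb
              rw [mul_single_apply_same]
              simp
            · rw [mul_single_apply_of_ne _ _ _ _ _ hb, hA j b (Ne.symm hb)]
              simp [Ne.symm hb]
          · rw [single_mul_apply_of_ne _ _ _ _ _ ha]
            by_cases hb : b = j
            · subst hb
              rw [mul_single_apply_same, hA a i ha]
              simp [Ne.symm ha]
            · rw [mul_single_apply_of_ne _ _ _ _ _ hb]
              simp [Ne.symm ha]
        rw [h4] at h3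
        have h8 : c j j - c i i ≠ 0 := sub_ne_zero.2 (Ne.symm h)
        have h9 := M.smul_mem (c j j - c i i)⁻¹ h3
        rw [smul_smul, inv_mul_cancel₀ h8, one_smul] at h9
        exact ⟨i, j, hij, h9⟩
      · exfalso
        push Not at hB
        rcases isEmpty_or_nonempty n with hn | ⟨⟨i0⟩⟩
        · exact hns 0 (by ext a; exact hn.elim a)
        · refine hns (c i0 i0) ?_
          ext a b
          rw [Matrix.smul_apply, smul_eq_mul]
          by_cases hab : a = b
          · subst hab
            rw [one_apply_eq, mul_one]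
            exact hB a i0
          · rw [one_apply_ne hab, mul_zero]
            exact hA a b hab
  -- all of them
  have hall : ∀ k l : n, k ≠ l → single k l (1 : K) ∈ M := by
    intro k l hkl
    by_cases hk : k = j
    · subst hk
      exact hcol k i l (Ne.symm hij) (Ne.symm hkl) (hflip i k hij hE)
    · exact hcol k j l hk (Ne.symm hkl) (hrow i j k hij hk hE)
  have hdiag : ∀ k l : n, single k k (1 : K) - single l l 1 ∈ M := by
    intro k l
    by_cases hkl : k = l
    · subst hkl
      rw [sub_self]
      exact M.zero_mem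
    · have h3 := hM (single k l 1) _ (hall l k (Ne.symm hkl))
      rwa [single_mul_single_same, single_mul_single_same, one_mul] at h3
  -- decomposition
  have hdec : x = ∑ a : n, ∑ b : n, (if a = b then x a a • (single a a (1 : K) - single i i 1) else x a b • single a b (1 : K)) := by
    have h3 : ∀ a b : n, (if a = b then x a a • (single a a (1 : K) - single i i 1) else x a b • single a b (1 : K)) =
        single a b (x a b) - (if a = b then x a a • single i i (1 : K) else 0) := by
      intro a b
      by_cases hab : a = b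
      · subst hab
        rw [if_pos rfl, if_pos rfl, smul_sub, smul_single, smul_eq_mul, mul_one]
      · rw [if_neg hab, if_neg hab, sub_zero, smul_single, smul_eq_mul, mul_one]
    have h4 : ∑ a : n, ∑ b : n, (if a = b then x a a • single i i (1 : K) else 0) = 0 := by
      have h5 : ∀ a : n, ∑ b : n, (if a = b then x a a • single i i (1 : K) else 0) = x a a • single i i (1 : K) := by
        intro a
        rw [Finset.sum_ite_eq]
        simp
      rw [Finset.sum_congr rfl fun a _ => h5 a, ← Finset.sum_smul]
      have h6 : ∑ a, x a a = 0 := hx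
      rw [h6, zero_smul]
    calc x = ∑ a : n, ∑ b : n, single a b (x a b) := matrix_eq_sum_single x
      _ = ∑ a : n, ∑ b : n, single a b (x a b) - ∑ a : n, ∑ b : n, (if a = b then x a a • single i i (1 : K) else 0) := by
          rw [h4, sub_zero]
      _ = _ := by
          rw [← Finset.sum_sub_distrib]
          refine Finset.sum_congr rfl fun a _ => ?_
          rw [← Finset.sum_sub_distrib]
          exact Finset.sum_congr rfl fun b _ => (h3 a b).symm
  rw [hdec]
  refine M.sum_mem fun a _ => M.sum_mem fun b _ => ?_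
  split_ifs with hab
  · exact M.smul_mem _ (hdiag a i)
  · exact M.smul_mem _ (hall a b hab)

end ideal


section eig
variable {K : Type*} [Field K] {n : Type*} [Fintype n] [DecidableEq n]

/-- the trace of `c ↦ R c S` -/
theorem trace_sandwich (R S : Matrix n n K) :
    LinearMap.trace K (Matrix n n K) (LinearMap.mulLeft K R ∘ₗ LinearMap.mulRight K S) = R.trace * S.trace := by
  rw [LinearMap.trace_eq_matrix_trace K (Matrix.stdBasis K n n)]
  unfold Matrix.trace
  simp only [diag_apply, LinearMap.toMatrix_apply, LinearMap.comp_apply, LinearMap.mulLeft_apply, LinearMap.mulRight_apply]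
  have h : ∀ z : n × n, ((Matrix.stdBasis K n n).repr (R * ((Matrix.stdBasis K n n) z * S))) z = R z.1 z.1 * S z.2 z.2 := by
    rintro ⟨i, j⟩
    have h1 : ∀ (A : Matrix n n K) (z : n × n), ((Matrix.stdBasis K n n).repr A) z = A z.1 z.2 := by
      intro A z
      simp [Matrix.stdBasis]
    rw [h1, Matrix.stdBasis_eq_single]
    dsimp only
    rw [← Matrix.mul_assoc]
    rw [mul_apply]
    rw [Finset.sum_eq_single j]
    · rw [mul_single_apply_same, mul_one]
    · intro b _ hb
      rw [mul_single_apply_of_ne _ _ _ _ _ hb, zero_mul]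
    · simp
  rw [Finset.sum_congr rfl fun z _ => h z, Finset.sum_mul_sum, ← Finset.univ_product_univ, Finset.sum_product]

/-- the trace of an idempotent matrix is its rank -/
theorem trace_idem (R : Matrix n n K) (h : R * R = R) : R.trace = (R.rank : K) := by
  have h1 : IsIdempotentElem R.toLin' := by
    change R.toLin' ∘ₗ R.toLin' = R.toLin'
    rw [← Matrix.toLin'_mul, h]
  have h2 := (LinearMap.IsProj.trace (LinearMap.isProj_range_iff_isIdempotentElem R.toLin' |>.2 h1))
  rw [Matrix.trace_toLin'_eq] at h2
  rw [h2]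
  rfl

/-- the dimension of an eigenspace of `ad A` -/
theorem finrank_eig [CharZero K] (P : Finset ℤ) (R : ℤ → Matrix n n K) {A : Matrix n n K}
    (hR : ∀ p q, R p * R q = if p = q then R p else 0) (hs : ∑ p ∈ P, R p = 1) (hP : ∀ p, p ∉ P → R p = 0)
    (hA : A = ∑ p ∈ P, (p : K) • R p) (k : ℤ) (E : Submodule K (Matrix n n K))
    (hE : ∀ c, c ∈ E ↔ A * c - c * A = (k : K) • c) :
    Module.finrank K E = ∑ p ∈ P, (R p).rank * (R (p + k)).rank := by
  have hAR : ∀ q, A * R q = (q : K) • R q := by
    intro q
    rw [hA, Finset.sum_mul]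
    by_cases hq : q ∈ P
    · rw [Finset.sum_eq_single q]
      · rw [smul_mul_assoc, hR, if_pos rfl]
      · intro p _ hpq
        rw [smul_mul_assoc, hR, if_neg hpq, smul_zero]
      · exact fun h => absurd hq h
    · rw [hP q hq]
      simp
  have hRA : ∀ q, R q * A = (q : K) • R q := by
    intro q
    rw [hA, Finset.mul_sum]
    by_cases hq : q ∈ P
    · rw [Finset.sum_eq_single q]
      · rw [mul_smul_comm, hR, if_pos rfl]
      · intro p _ hpq
        rw [mul_smul_comm, hR, if_neg (Ne.symm hpq), smul_zero]
      · exact fun h => absurd hq h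
    · rw [hP q hq]
      simp
  obtain ⟨Φ, hΦ⟩ : ∃ Φ : Matrix n n K →ₗ[K] Matrix n n K,
      Φ = ∑ p ∈ P, LinearMap.mulLeft K (R (p + k)) ∘ₗ LinearMap.mulRight K (R p) := ⟨_, rfl⟩
  have hΦa : ∀ c, Φ c = ∑ p ∈ P, R (p + k) * (c * R p) := by
    intro c
    rw [hΦ, LinearMap.sum_apply]
    rfl
  have hproj : LinearMap.IsProj E Φ := by
    constructor
    · intro c
      rw [hE, hΦa, Finset.mul_sum, Finset.sum_mul, ← Finset.sum_sub_distrib, Finset.smul_sum]
      refine Finset.sum_congr rfl fun p _ => ?_
      rw [← Matrix.mul_assoc, hAR, Matrix.mul_assoc, Matrix.mul_assoc c, hRA, mul_smul_comm, mul_smul_comm,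
        smul_mul_assoc, ← sub_smul]
      push_cast
      congr 1
      ring
    · intro c hc
      rw [hE] at hc
      rw [hΦa]
      have h1 : ∀ p q, q ≠ p + k → R q * (c * R p) = 0 := by
        intro p q hqp
        have h2 : R q * ((A * c - c * A) * R p) = ((q : K) - p) • (R q * (c * R p)) := by
          rw [sub_mul, mul_sub, Matrix.mul_assoc A, ← Matrix.mul_assoc (R q) A, hRA, Matrix.mul_assoc c A, hAR,
            mul_smul_comm, mul_smul_comm, smul_mul_assoc, ← sub_smul]
        rw [hc, smul_mul_assoc, mul_smul_comm] at h2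
        have h3 : ((q : K) - p - k) • (R q * (c * R p)) = 0 := by
          rw [sub_smul _ (k : K), ← h2, sub_self]
        rcases smul_eq_zero.1 h3 with h4 | h4
        · exfalso
          apply hqp
          have h5 : ((q - p - k : ℤ) : K) = 0 := by push_cast; exact h4
          have h6 := Int.cast_eq_zero.1 h5
          omega
        · exact h4
      have h2 : ∀ p, R (p + k) * (c * R p) = c * R p := by
        intro p
        have h3 : c * R p = ∑ q ∈ P, R q * (c * R p) := by
          rw [← Finset.sum_mul, hs, Matrix.one_mul]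
        by_cases hq : p + k ∈ P
        · conv_rhs => rw [h3]
          rw [Finset.sum_eq_single (p + k)]
          · intro q _ hq'
            exact h1 p q hq'
          · exact fun h => absurd hq h
        · have h4 : c * R p = 0 := by
            rw [h3]
            refine Finset.sum_eq_zero fun q hq' => h1 p q ?_
            rintro rfl
            exact hq hq'
          rw [h4, Matrix.mul_zero]
      rw [Finset.sum_congr rfl fun p _ => h2 p, ← Finset.mul_sum, hs, Matrix.mul_one]
  have h1 := hproj.trace
  rw [hΦ, map_sum] at h1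
  have h2 : ((∑ p ∈ P, (R p).rank * (R (p + k)).rank : ℕ) : K) = (Module.finrank K E : K) := by
    rw [← h1]
    push_cast
    refine Finset.sum_congr rfl fun p _ => ?_
    rw [trace_sandwich, trace_idem _ (by rw [hR, if_pos rfl]), trace_idem _ (by rw [hR, if_pos rfl]), mul_comm]
  exact_mod_cast h2.symm

end eig

section linear
variable {K : Type*} [Field K]

theorem finrank_map_eq {V W W' : Type*} [AddCommGroup V] [Module K V] [AddCommGroup W] [Module K W] [AddCommGroup W']
    [Module K W'] [FiniteDimensional K V] (f : V →ₗ[K] W) (g : V →ₗ[K] W') (h : LinearMap.ker f = LinearMap.ker g)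
    (F : Submodule K V) : Module.finrank K (F.map f) = Module.finrank K (F.map g) := by
  have h1 := LinearMap.finrank_range_add_finrank_ker (f.domRestrict F)
  have h2 := LinearMap.finrank_range_add_finrank_ker (g.domRestrict F)
  have h3 : LinearMap.ker (f.domRestrict F) = LinearMap.ker (g.domRestrict F) := by
    ext a
    have h4 : (a : V) ∈ LinearMap.ker f ↔ (a : V) ∈ LinearMap.ker g := by rw [h]
    simpa [LinearMap.mem_ker] using h4
  rw [h3] at h1
  rw [LinearMap.range_domRestrict] at h1 h2
  omega

end linear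

section pair
variable {K : Type*} [Field K] [CharZero K] {n : Type*} [Fintype n] [DecidableEq n]

/-- the traceless part -/
noncomputable def tl (K : Type*) [Field K] (n : Type*) [Fintype n] [DecidableEq n] : Matrix n n K →ₗ[K] Matrix n n K where
  toFun c := c - ((Fintype.card n : K)⁻¹ * c.trace) • (1 : Matrix n n K)
  map_add' a b := by
    rw [Matrix.trace_add, mul_add, add_smul]
    abel
  map_smul' r a := by
    rw [Matrix.trace_smul, smul_eq_mul, RingHom.id_apply, smul_sub, smul_smul]
    congr 2
    ring

omit [CharZero K] in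
theorem tl_apply (c : Matrix n n K) : tl K n c = c - ((Fintype.card n : K)⁻¹ * c.trace) • (1 : Matrix n n K) := rfl

omit [CharZero K] in
theorem tl_of_trace {c : Matrix n n K} (h : c.trace = 0) : tl K n c = c := by
  rw [tl_apply, h, mul_zero, zero_smul, sub_zero]

theorem trace_tl [Nonempty n] (c : Matrix n n K) : (tl K n c).trace = 0 := by
  have h : (Fintype.card n : K) ≠ 0 := Nat.cast_ne_zero.2 Fintype.card_ne_zero
  rw [tl_apply, Matrix.trace_sub, Matrix.trace_smul, Matrix.trace_one, smul_eq_mul]
  field_simp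
  ring

theorem tl_scalar [Nonempty n] (l : K) : tl K n (l • (1 : Matrix n n K)) = 0 := by
  have h : (Fintype.card n : K) ≠ 0 := Nat.cast_ne_zero.2 Fintype.card_ne_zero
  rw [tl_apply, Matrix.trace_smul, Matrix.trace_one, smul_eq_mul, ← sub_smul]
  have h1 : l - (Fintype.card n : K)⁻¹ * (l * (Fintype.card n : K)) = 0 := by
    field_simp
    ring
  rw [h1, zero_smul]

omit [CharZero K] in
theorem tl_br (a c : Matrix n n K) : a * tl K n c - tl K n c * a = a * c - c * a := by
  rw [tl_apply, mul_sub, sub_mul, mul_smul_comm, smul_mul_assoc, Matrix.mul_one, Matrix.one_mul]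
  abel

omit [CharZero K] [DecidableEq n] in
theorem trace_br (a c : Matrix n n K) : (a * c - c * a).trace = 0 := by
  rw [Matrix.trace_sub, Matrix.trace_mul_comm, sub_self]

/-- dimension of an eigenspace and of its traceless part -/
theorem finrank_tr [Nonempty n] {A A' : Matrix n n K} (k : K) (E E' : Submodule K (Matrix n n K))
    (hE : ∀ c, c ∈ E ↔ A * c - c * A = k • c) (hE' : ∀ c, c ∈ E' ↔ A' * c - c * A' = k • c)
    (h : Module.finrank K ((LinearMap.ker (Matrix.traceLinearMap n K K) ⊓ E : Submodule K (Matrix n n K))) =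
      Module.finrank K ((LinearMap.ker (Matrix.traceLinearMap n K K) ⊓ E' : Submodule K (Matrix n n K)))) :
    Module.finrank K E = Module.finrank K E' := by
  have hker : ∀ E : Submodule K (Matrix n n K),
      Module.finrank K (LinearMap.ker ((Matrix.traceLinearMap n K K).domRestrict E)) =
        Module.finrank K ((LinearMap.ker (Matrix.traceLinearMap n K K) ⊓ E : Submodule K (Matrix n n K))) := by
    intro E
    rw [← Submodule.finrank_map_subtype_eq E]
    have h1 : Submodule.map E.subtype (LinearMap.ker ((Matrix.traceLinearMap n K K).domRestrict E)) =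
        LinearMap.ker (Matrix.traceLinearMap n K K) ⊓ E := by
      ext c
      rw [Submodule.mem_map, Submodule.mem_inf]
      constructor
      · rintro ⟨y, hy, rfl⟩
        exact ⟨hy, y.2⟩
      · rintro ⟨h1, h2⟩
        exact ⟨⟨c, h2⟩, h1, rfl⟩
    rw [h1]
  classical
  have hran : ∀ (A : Matrix n n K) (E : Submodule K (Matrix n n K)), (∀ c, c ∈ E ↔ A * c - c * A = k • c) →
      LinearMap.range ((Matrix.traceLinearMap n K K).domRestrict E) = if k = 0 then ⊤ else ⊥ := by
    intro A E hE
    split_ifs with hk
    · rw [LinearMap.range_eq_top]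
      intro r
      have h1 : ((Fintype.card n : K)⁻¹ * r) • (1 : Matrix n n K) ∈ E := by
        rw [hE, hk, zero_smul, mul_smul_comm, smul_mul_assoc, Matrix.mul_one, Matrix.one_mul, sub_self]
      refine ⟨⟨_, h1⟩, ?_⟩
      rw [LinearMap.domRestrict_apply, Matrix.traceLinearMap_apply]
      dsimp only
      have h : (Fintype.card n : K) ≠ 0 := Nat.cast_ne_zero.2 Fintype.card_ne_zero
      rw [Matrix.trace_smul, Matrix.trace_one, smul_eq_mul]
      field_simp
    · rw [LinearMap.range_eq_bot]
      ext ⟨c, hc⟩
      rw [LinearMap.domRestrict_apply, Matrix.traceLinearMap_apply, LinearMap.zero_apply]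
      have h1 := trace_br A c
      rw [(hE c).1 hc, Matrix.trace_smul, smul_eq_mul] at h1
      exact (mul_eq_zero.1 h1).resolve_left hk
  have h1 := LinearMap.finrank_range_add_finrank_ker ((Matrix.traceLinearMap n K K).domRestrict E)
  have h2 := LinearMap.finrank_range_add_finrank_ker ((Matrix.traceLinearMap n K K).domRestrict E')
  rw [hker, hran A E hE] at h1
  rw [hker, hran A' E' hE'] at h2
  omega

variable {X : Type*}

/-- two blocks -/
theorem pair [Finite X] [Nonempty n] (L : Submodule K (X → Matrix n n K)) (hbr : ∀ a ∈ L, ∀ b ∈ L, a * b - b * a ∈ L)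
    (hsur : ∀ x, ∀ c : Matrix n n K, c.trace = 0 → ∃ a ∈ L, a x = c) {x x' : X}
    (hP : ∀ a ∈ L, (∃ l : K, a x' = l • (1 : Matrix n n K)) → ∃ l : K, a x = l • (1 : Matrix n n K))
    {a : X → Matrix n n K} (ha : a ∈ L) (k : K) (E E' : Submodule K (Matrix n n K))
    (hE : ∀ c, c ∈ E ↔ a x * c - c * a x = k • c) (hE' : ∀ c, c ∈ E' ↔ a x' * c - c * a x' = k • c) :
    Module.finrank K E = Module.finrank K E' := by
  obtain ⟨f, hf⟩ : ∃ f : X → (L →ₗ[K] Matrix n n K), ∀ x b, f x b = tl K n ((b : X → Matrix n n K) x) :=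
    ⟨fun x => tl K n ∘ₗ LinearMap.proj x ∘ₗ L.subtype, fun x b => rfl⟩
  have hran : ∀ x, LinearMap.range (f x) = LinearMap.ker (Matrix.traceLinearMap n K K) := by
    intro x
    ext c
    rw [LinearMap.mem_range, LinearMap.mem_ker, Matrix.traceLinearMap_apply]
    constructor
    · rintro ⟨b, rfl⟩
      rw [hf]
      exact trace_tl _
    · intro hc
      obtain ⟨b, hb, hbx⟩ := hsur x c hc
      refine ⟨⟨b, hb⟩, ?_⟩
      rw [hf]
      dsimp only
      rw [hbx, tl_of_trace hc]
  have hle : LinearMap.ker (f x') ≤ LinearMap.ker (f x) := by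
    intro b hb
    rw [LinearMap.mem_ker, hf] at hb ⊢
    rw [tl_apply, sub_eq_zero] at hb
    obtain ⟨l, hl⟩ := hP b b.2 ⟨_, hb⟩
    rw [hl]
    exact tl_scalar l
  have hker : LinearMap.ker (f x') = LinearMap.ker (f x) := by
    refine Submodule.eq_of_le_of_finrank_eq hle ?_
    have h1 := LinearMap.finrank_range_add_finrank_ker (f x)
    have h2 := LinearMap.finrank_range_add_finrank_ker (f x')
    rw [hran] at h1 h2
    omega
  have hF : ∀ (x : X) (E : Submodule K (Matrix n n K)), (∀ c, c ∈ E ↔ a x * c - c * a x = k • c) → ∀ b : L,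
      b ∈ E.comap (f x) ↔ (⟨a * b - b * a, hbr a ha b b.2⟩ - k • b : L) ∈ LinearMap.ker (f x) := by
    intro x E hE b
    rw [Submodule.mem_comap, hE, LinearMap.mem_ker, map_sub, map_smul, sub_eq_zero, hf, hf, tl_br]
    have h1 : tl K n ((a * (b : X → Matrix n n K) - b * a) x) = a x * (b : X → Matrix n n K) x - (b : X → Matrix n n K) x * a x :=
      tl_of_trace (trace_br _ _)
    rw [h1]
  have hcom : E.comap (f x) = E'.comap (f x') := by
    ext b
    rw [hF x E hE b, hF x' E' hE' b, hker]
  have h1 := finrank_map_eq (f x) (f x') hker.symm (E.comap (f x))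
  have h2 : (E.comap (f x)).map (f x) = LinearMap.ker (Matrix.traceLinearMap n K K) ⊓ E := by
    rw [Submodule.map_comap_eq, hran]
  have h3 : (E.comap (f x)).map (f x') = LinearMap.ker (Matrix.traceLinearMap n K K) ⊓ E' := by
    rw [hcom, Submodule.map_comap_eq, hran]
  rw [h2, h3] at h1
  exact finrank_tr k E E' hE hE' h1

end pair

section D
variable {K : Type} [Field K] [CharZero K] {X n : Type} [Fintype X] [DecidableEq X] [Fintype n] [DecidableEq n]

/-- the eigenspace of `ad A` -/
def eigS (A : Matrix n n K) (k : K) : Submodule K (Matrix n n K) where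
  carrier := {c | A * c - c * A = k • c}
  add_mem' := by
    intro c d hc hd
    rw [Set.mem_ofPred_eq] at hc hd ⊢
    rw [smul_add, ← hc, ← hd, mul_add, add_mul]
    abel
  zero_mem' := by simp
  smul_mem' := by
    intro r c hc
    rw [Set.mem_ofPred_eq] at hc ⊢
    rw [mul_smul_comm, smul_mul_assoc, ← smul_sub, hc, smul_comm]

/-- the elements `a x`, `a ∈ L` such that `a` vanishes on `S` -/
def blk (L : Submodule K (X → Matrix n n K)) (x : X) (S : Finset X) : Submodule K (Matrix n n K) where
  carrier := {c | ∃ a ∈ L, a x = c ∧ ∀ y ∈ S, a y = 0}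
  add_mem' := by
    rintro c d ⟨a, ha, rfl, h⟩ ⟨b, hb, rfl, h'⟩
    refine ⟨a + b, L.add_mem ha hb, rfl, fun y hy => ?_⟩
    rw [Pi.add_apply, h y hy, h' y hy, add_zero]
  zero_mem' := ⟨0, L.zero_mem, rfl, fun _ _ => rfl⟩
  smul_mem' := by
    rintro r c ⟨a, ha, rfl, h⟩
    refine ⟨r • a, L.smul_mem r ha, rfl, fun y hy => ?_⟩
    rw [Pi.smul_apply, h y hy, smul_zero]

/-- the elements `a x`, `a ∈ L` such that `a y` is scalar -/
def sblk (L : Submodule K (X → Matrix n n K)) (x y : X) : Submodule K (Matrix n n K) where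
  carrier := {c | ∃ a ∈ L, a x = c ∧ ∃ l : K, a y = l • (1 : Matrix n n K)}
  add_mem' := by
    rintro c d ⟨a, ha, rfl, l, h⟩ ⟨b, hb, rfl, l', h'⟩
    refine ⟨a + b, L.add_mem ha hb, rfl, l + l', ?_⟩
    rw [Pi.add_apply, h, h', add_smul]
  zero_mem' := ⟨0, L.zero_mem, rfl, 0, by rw [zero_smul]; rfl⟩
  smul_mem' := by
    rintro r c ⟨a, ha, rfl, l, h⟩
    refine ⟨r • a, L.smul_mem r ha, rfl, r * l, ?_⟩
    rw [Pi.smul_apply, h, smul_smul]

omit [CharZero K] in
/-- brackets with traceless matrices are brackets with all matrices -/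
theorem br_tl (d c : Matrix n n K) : d * c - c * d = tl K n d * c - c * tl K n d := by
  have h := tl_br c d
  have h1 : c * tl K n d - tl K n d * c = c * d - d * c := h
  have h2 := congrArg Neg.neg h1
  rw [neg_sub, neg_sub] at h2
  exact h2.symm

omit [Fintype X] [DecidableEq X] in
theorem blk_br [Nonempty n] {L : Submodule K (X → Matrix n n K)} (hbr : ∀ a ∈ L, ∀ b ∈ L, a * b - b * a ∈ L)
    (hsur : ∀ x, ∀ c : Matrix n n K, c.trace = 0 → ∃ a ∈ L, a x = c) (x : X) (S : Finset X) (d : Matrix n n K) :
    ∀ c ∈ blk L x S, d * c - c * d ∈ blk L x S := by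
  rintro c ⟨a, ha, rfl, h⟩
  obtain ⟨b, hb, hbx⟩ := hsur x (tl K n d) (trace_tl d)
  refine ⟨b * a - a * b, hbr b hb a ha, ?_, fun y hy => ?_⟩
  · rw [Pi.sub_apply, Pi.mul_apply, Pi.mul_apply, hbx, ← br_tl]
  · rw [Pi.sub_apply, Pi.mul_apply, Pi.mul_apply, h y hy, Matrix.mul_zero, Matrix.zero_mul, sub_zero]

omit [Fintype X] [DecidableEq X] in
theorem sblk_br [Nonempty n] {L : Submodule K (X → Matrix n n K)} (hbr : ∀ a ∈ L, ∀ b ∈ L, a * b - b * a ∈ L)
    (hsur : ∀ x, ∀ c : Matrix n n K, c.trace = 0 → ∃ a ∈ L, a x = c) (x y : X) (d : Matrix n n K) :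
    ∀ c ∈ sblk L x y, d * c - c * d ∈ blk L x {y} := by
  rintro c ⟨a, ha, rfl, l, h⟩
  obtain ⟨b, hb, hbx⟩ := hsur x (tl K n d) (trace_tl d)
  refine ⟨b * a - a * b, hbr b hb a ha, ?_, fun z hz => ?_⟩
  · rw [Pi.sub_apply, Pi.mul_apply, Pi.mul_apply, hbx, ← br_tl]
  · rw [Finset.mem_singleton] at hz
    subst hz
    rw [Pi.sub_apply, Pi.mul_apply, Pi.mul_apply, h, mul_smul_comm, smul_mul_assoc, Matrix.mul_one, Matrix.one_mul, sub_self]

omit [Fintype X] [CharZero K] [DecidableEq X] [Fintype n] in
theorem blk_le_sblk (L : Submodule K (X → Matrix n n K)) (x y : X) : blk L x {y} ≤ sblk L x y := by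
  rintro c ⟨a, ha, rfl, h⟩
  exact ⟨a, ha, rfl, 0, by rw [h y (Finset.mem_singleton_self y), zero_smul]⟩

/-- D: Goursat's lemma -/
theorem goursat (L : Submodule K (X → Matrix n n K)) (hbr : ∀ a ∈ L, ∀ b ∈ L, a * b - b * a ∈ L)
    (hsur : ∀ x, ∀ c : Matrix n n K, c.trace = 0 → ∃ a ∈ L, a x = c)
    -- elements with different adjoint numbers
    (hsep : ∀ x x', x ≠ x' → ∃ (P : Finset ℤ) (R R' : ℤ → Matrix n n K) (k : ℤ), ∃ a ∈ L,
      (∀ p q, R p * R q = if p = q then R p else 0) ∧ (∀ p q, R' p * R' q = if p = q then R' p else 0) ∧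
      ∑ p ∈ P, R p = 1 ∧ ∑ p ∈ P, R' p = 1 ∧ (∀ p, p ∉ P → R p = 0) ∧ (∀ p, p ∉ P → R' p = 0) ∧
      a x = ∑ p ∈ P, (p : K) • R p ∧ a x' = ∑ p ∈ P, (p : K) • R' p ∧
      ∑ p ∈ P, (R p).rank * (R (p + k)).rank ≠ ∑ p ∈ P, (R' p).rank * (R' (p + k)).rank) :
    ∀ a : X → Matrix n n K, (∀ x, (a x).trace = 0) → a ∈ L := by
  intro a ha
  -- small `n`
  rcases subsingleton_or_nontrivial n with hn | hn
  · have h0 : a = 0 := by
      ext x i j
      have h1 := ha x
      have h2 : (a x).trace = a x i j := by
        unfold Matrix.trace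
        rw [Fintype.sum_subsingleton _ i, diag_apply, Subsingleton.elim j i]
      rw [h2] at h1
      exact h1
    rw [h0]
    exact L.zero_mem
  obtain ⟨i, j, hij⟩ := exists_pair_ne n
  have : Nonempty n := ⟨i⟩
  have h2 : (2 : K) ≠ 0 := two_ne_zero
  have hns : ∀ l : K, single i i (1 : K) - single j j 1 ≠ l • (1 : Matrix n n K) := by
    intro l h
    have h3 := congrFun (congrFun h i) i
    have h4 := congrFun (congrFun h j) j
    rw [Matrix.sub_apply, Matrix.smul_apply, one_apply_eq, single_apply_same, single_apply_of_ne] at h3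
    · rw [Matrix.sub_apply, Matrix.smul_apply, one_apply_eq, single_apply_same, single_apply_of_ne] at h4
      · rw [← h3] at h4
        have h5 : (2 : K) = 0 := by linear_combination -h4
        exact h2 h5
      · simp [hij]
    · simp [Ne.symm hij]
  have htr : ∀ i j : n, i ≠ j → (single i j (1 : K)).trace = 0 := by
    intro i j hij
    unfold Matrix.trace
    refine Finset.sum_eq_zero fun k _ => ?_
    rw [diag_apply, single_apply_of_ne]
    rintro ⟨rfl, rfl⟩
    exact hij rfl
  have hE : ∀ i j : n, single i j (1 : K) * single j i 1 - single j i 1 * single i j 1 = single i i 1 - single j j 1 := by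
    intro i j
    rw [single_mul_single_same, single_mul_single_same, one_mul]
  -- two blocks
  have hpair : ∀ x y : X, x ≠ y → ∀ c : Matrix n n K, c.trace = 0 → c ∈ blk L x {y} := by
    intro x y hxy
    by_cases hA : ∃ c ∈ blk L x {y}, ∀ l : K, c ≠ l • (1 : Matrix n n K)
    · obtain ⟨c, hc, hcl⟩ := hA
      exact fun d hd => ideal_top h2 _ (fun d c hc => blk_br hbr hsur x {y} d c hc) hc hcl d hd
    exfalso
    by_cases hB : ∃ c ∈ sblk L x y, ∀ l : K, c ≠ l • (1 : Matrix n n K)
    · obtain ⟨c, hc, hcl⟩ := hB
      have h3 := ideal_top h2 (sblk L x y) (fun d c hc => blk_le_sblk L x y (sblk_br hbr hsur x y d c hc)) hc hcl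
        (single j i (1 : K)) (htr j i (Ne.symm hij))
      have h4 := sblk_br hbr hsur x y (single i j 1) _ h3
      rw [hE] at h4
      exact hA ⟨_, h4, hns⟩
    push Not at hB
    obtain ⟨P, R, R', k, b, hb, r1, r2, r3, r4, r5, r6, r7, r8, r9⟩ := hsep x y hxy
    apply r9
    rw [← finrank_eig P R r1 r3 r5 r7 k (eigS (b x) (k : K)) (fun c => Iff.rfl),
      ← finrank_eig P R' r2 r4 r6 r8 k (eigS (b y) (k : K)) (fun c => Iff.rfl)]
    refine pair L hbr hsur ?_ hb (k : K) _ _ (fun c => Iff.rfl) (fun c => Iff.rfl)
    intro b hb hby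
    exact hB (b x) ⟨b, hb, rfl, hby⟩
  -- more and more blocks
  have hall : ∀ x : X, ∀ S : Finset X, x ∉ S → ∀ c : Matrix n n K, c.trace = 0 → c ∈ blk L x S := by
    intro x S
    induction S using Finset.induction_on with
    | empty =>
      intro _ c hc
      obtain ⟨b, hb, hbx⟩ := hsur x c hc
      exact ⟨b, hb, hbx, fun y hy => absurd hy (Finset.notMem_empty y)⟩
    | insert y S hy ih =>
      intro hx
      rw [Finset.mem_insert, not_or] at hx
      obtain ⟨b, hb, hbx, hbS⟩ := ih hx.2 (single i j 1) (htr i j hij)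
      obtain ⟨d, hd, hdx, hdy⟩ := hpair x y hx.1 (single j i 1) (htr j i (Ne.symm hij))
      have h3 : single i i (1 : K) - single j j 1 ∈ blk L x (insert y S) := by
        refine ⟨b * d - d * b, hbr b hb d hd, ?_, fun z hz => ?_⟩
        · rw [Pi.sub_apply, Pi.mul_apply, Pi.mul_apply, hbx, hdx, hE]
        · rw [Finset.mem_insert] at hz
          rcases hz with rfl | hz
          · rw [Pi.sub_apply, Pi.mul_apply, Pi.mul_apply, hdy z (Finset.mem_singleton_self z), Matrix.mul_zero, Matrix.zero_mul,
              sub_zero]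
          · rw [Pi.sub_apply, Pi.mul_apply, Pi.mul_apply, hbS z hz, Matrix.mul_zero, Matrix.zero_mul, sub_zero]
      exact fun c hc => ideal_top h2 _ (fun d c hc => blk_br hbr hsur x _ d c hc) h3 hns c hc
  have hsum : a = ∑ x : X, Pi.single x (a x) := (Finset.univ_sum_single a).symm
  rw [hsum]
  refine L.sum_mem fun x _ => ?_
  obtain ⟨b, hb, hbx, hb0⟩ := hall x (Finset.univ.erase x) (by simp) (a x) (ha x)
  have h3 : Pi.single x (a x) = b := by
    funext y
    by_cases hy : y = x
    · subst hy
      rw [Pi.single_eq_same, hbx]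
    · rw [Pi.single_eq_of_ne hy, hb0 y (by simp [hy])]
  rw [h3]
  exact hb

end D

end Pool.Agent.Helper68.KM
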